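import Mathlib

namespace Pool.Agent.HarmExc

/-- `b_n = lcm(2, 3, …, n)` -/
def b (n : ℕ) : ℕ := (Finset.Icc 2 n).lcm id

/-- `a_n = b_n ∑_{k=2}^n 1/k` (each `k ≤ n` divides `b_n`, so the divisions are exact) -/
def a (n : ℕ) : ℕ := ∑ k ∈ Finset.Icc 2 n, b n / k

/-- `n` is exceptional: `b_n` divides `a_n - 1` or `a_n + 1` -/
def Exceptional (n : ℕ) : Prop :=
  2 ≤ n ∧ ((b n : ℤ) ∣ (a n : ℤ) - 1 ∨ (b n : ℤ) ∣ (a n : ℤ) + 1)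

end Pool.Agent.HarmExc
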