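import Mathlib
import Pool.Agent.HarmExc.Defs

namespace Pool.Agent.HarmExc

open Finset

noncomputable def S (n : ℕ) : ℝ := ∑ k ∈ Icc 2 n, 1 / (k : ℝ)

lemma dvd_b {n k : ℕ} (h2 : 2 ≤ k) (hk : k ≤ n) : k ∣ b n :=
  Finset.dvd_lcm (f := id) (Finset.mem_Icc.mpr ⟨h2, hk⟩)

lemma b_pos (n : ℕ) : 0 < b n := by
  rw [Nat.pos_iff_ne_zero]
  unfold b
  rw [Ne, Finset.lcm_eq_zero_iff]
  simp

lemma b_dvd {n m : ℕ} (h : n ≤ m) : b n ∣ b m := by
  refine Finset.lcm_dvd fun k hk => ?_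
  rw [Finset.mem_Icc] at hk
  exact dvd_b hk.1 (hk.2.trans h)

lemma b_five : b 5 = 60 := by decide

lemma b_ge {n : ℕ} (h : 5 ≤ n) : 60 ≤ b n := by
  have := Nat.le_of_dvd (b_pos n) (b_dvd h)
  rwa [b_five] at this

lemma b_ge_mul {n : ℕ} (h : 5 ≤ n) : n * (n - 1) ≤ b n := by
  refine Nat.le_of_dvd (b_pos n) ?_
  have hc : Nat.Coprime n (n - 1) := by
    have h1 : n - 1 + 1 = n := by omega
    have h2 := (Nat.coprime_self_add_right (m := n - 1) (n := 1)).mpr (Nat.coprime_one_right _)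
    rw [h1] at h2
    exact h2.symm
  exact Nat.Coprime.mul_dvd_of_dvd_of_dvd hc (dvd_b (by omega) le_rfl) (dvd_b (by omega) (by omega))

lemma a_eq (n : ℕ) : (a n : ℝ) = b n * S n := by
  unfold a S
  push_cast
  rw [Finset.mul_sum]
  refine Finset.sum_congr rfl fun k hk => ?_
  rw [Finset.mem_Icc] at hk
  have hk0 : (k : ℝ) ≠ 0 := by
    have : 0 < k := by omega
    exact_mod_cast this.ne'
  rw [Nat.cast_div (dvd_b hk.1 hk.2) hk0]
  ring

lemma exc {n : ℕ} (h : Exceptional n) : ∃ q : ℤ, |S n - q| = 1 / (b n : ℝ) := by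
  have hb : (0 : ℝ) < b n := by exact_mod_cast b_pos n
  obtain ⟨-, ⟨q, hq⟩ | ⟨q, hq⟩⟩ := h
  · refine ⟨q, ?_⟩
    have h1 : (a n : ℝ) - 1 = b n * q := by exact_mod_cast hq
    rw [a_eq] at h1
    have h2 : S n - q = 1 / (b n : ℝ) := by
      field_simp
      linarith
    rw [h2, abs_of_pos (by positivity)]
  · refine ⟨q, ?_⟩
    have h1 : (a n : ℝ) + 1 = b n * q := by exact_mod_cast hq
    rw [a_eq] at h1
    have h2 : S n - q = -(1 / (b n : ℝ)) := by
      field_simp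
      linarith
    rw [h2, abs_neg, abs_of_pos (by positivity)]

lemma S_succ {n : ℕ} (h : 1 ≤ n) : S (n + 1) = S n + 1 / ((n : ℝ) + 1) := by
  unfold S
  rw [Finset.sum_Icc_succ_top (by omega)]
  push_cast
  rfl

lemma S_lower {n m : ℕ} (h1 : 1 ≤ n) (h : n < m) : S n + 1 / ((n : ℝ) + 1) ≤ S m := by
  induction m, h using Nat.le_induction with
  | base => rw [S_succ h1]
  | succ m hm ih =>
    have hm1 : 1 ≤ m := by
      have : n + 1 ≤ m := hm
      omega
    rw [S_succ hm1]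
    have : (0 : ℝ) ≤ 1 / ((m : ℝ) + 1) := by positivity
    linarith

lemma S_upper {n m : ℕ} (h1 : 1 ≤ n) (h : n ≤ m) :
    S m - S n ≤ Real.log (m : ℝ) - Real.log (n : ℝ) := by
  induction m, h using Nat.le_induction with
  | base => simp
  | succ m hm ih =>
    have hm1 : 1 ≤ m := h1.trans hm
    rw [S_succ hm1]
    have hm0 : (0 : ℝ) < m := by exact_mod_cast hm1
    have h2 : Real.log ((m : ℝ) / ((m : ℝ) + 1)) ≤ (m : ℝ) / ((m : ℝ) + 1) - 1 :=
      Real.log_le_sub_one_of_pos (by positivity)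
    rw [Real.log_div hm0.ne' (by positivity)] at h2
    have h3 : (m : ℝ) / ((m : ℝ) + 1) - 1 = -(1 / ((m : ℝ) + 1)) := by
      field_simp
      ring
    push_cast
    linarith

theorem gap {n m : ℕ} (hn : Exceptional n) (hm : Exceptional m) (h5 : 5 ≤ n) (h : n < m) :
    5 * n < 2 * m := by
  by_contra hcon
  push Not at hcon
  obtain ⟨q, hq⟩ := exc hn
  obtain ⟨r, hr⟩ := exc hm
  have hbn : (60 : ℝ) ≤ b n := by exact_mod_cast b_ge h5
  have hbn0 : (0 : ℝ) < b n := by linarith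
  have hbm : (b n : ℝ) ≤ b m := by
    exact_mod_cast Nat.le_of_dvd (b_pos m) (b_dvd h.le)
  have hbm' : 1 / (b m : ℝ) ≤ 1 / (b n : ℝ) := one_div_le_one_div_of_le hbn0 hbm
  have hb60 : 1 / (b n : ℝ) ≤ 1 / 60 := one_div_le_one_div_of_le (by norm_num) hbn
  have hn0 : (5 : ℝ) ≤ n := by exact_mod_cast h5
  -- `2 / b n < 1 / (n + 1)`
  have hkey : 2 * (1 / (b n : ℝ)) < 1 / ((n : ℝ) + 1) := by
    have h1 : ((n * (n - 1) : ℕ) : ℝ) ≤ b n := by exact_mod_cast b_ge_mul h5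
    rw [Nat.cast_mul, Nat.cast_sub (by omega : 1 ≤ n), Nat.cast_one] at h1
    have h2 : 2 * ((n : ℝ) + 1) < b n := by nlinarith
    rw [mul_one_div, div_lt_div_iff₀ hbn0 (by positivity)]
    linarith
  have h1 := abs_le.mp hq.le
  have h2 := abs_le.mp hr.le
  have h3 := S_lower (by omega : 1 ≤ n) h
  have hqr : (q : ℝ) < r := by linarith [h1.1, h1.2, h2.1, h2.2]
  have hqr' : q + 1 ≤ r := by
    have : q < r := by exact_mod_cast hqr
    omega
  have hqr'' : (q : ℝ) + 1 ≤ r := by exact_mod_cast hqr'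
  have h4 := S_upper (by omega : 1 ≤ n) h.le
  have h5' : (29 : ℝ) / 30 ≤ Real.log (m : ℝ) - Real.log (n : ℝ) := by
    linarith [h1.1, h1.2, h2.1, h2.2]
  have hn00 : (0 : ℝ) < n := by linarith
  have hm0 : (0 : ℝ) < m := by
    have : (n : ℝ) < m := by exact_mod_cast h
    linarith
  have h6 : (m : ℝ) ≤ 5 / 2 * n := by
    have : (2 : ℝ) * m ≤ 5 * n := by exact_mod_cast hcon
    linarith
  have h7 : Real.log (m : ℝ) ≤ Real.log (5 / 2) + Real.log (n : ℝ) := by
    rw [← Real.log_mul (by norm_num) hn00.ne']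
    exact Real.log_le_log hm0 h6
  have h8 : Real.log (5 / 2) < 29 / 30 := by
    rw [Real.log_lt_iff_lt_exp (by norm_num)]
    have e1 := Real.exp_one_gt_d9
    have e2 := Real.add_one_le_exp (-(1 / 30 : ℝ))
    have e3 : Real.exp (29 / 30) = Real.exp 1 * Real.exp (-(1 / 30)) := by
      rw [← Real.exp_add]
      norm_num
    rw [e3]
    nlinarith [Real.exp_pos (1 : ℝ)]
  linarith

theorem geometric (t : ℕ) : ∀ F : Finset ℕ, (∀ n ∈ F, Exceptional n ∧ 5 ≤ n) → F.card = t + 1 →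
    ∃ M ∈ F, (∀ n ∈ F, n ≤ M) ∧ (5 : ℝ) * (5 / 2) ^ t ≤ M := by
  induction t with
  | zero =>
    intro F hF hcard
    have hne : F.Nonempty := by
      rw [← Finset.card_pos]
      omega
    refine ⟨F.max' hne, F.max'_mem hne, fun n hn => F.le_max' n hn, ?_⟩
    have := (hF _ (F.max'_mem hne)).2
    rw [pow_zero, mul_one]
    exact_mod_cast this
  | succ t ih =>
    intro F hF hcard
    have hne : F.Nonempty := by
      rw [← Finset.card_pos]
      omega
    have hM := F.max'_mem hne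
    refine ⟨F.max' hne, hM, fun n hn => F.le_max' n hn, ?_⟩
    obtain ⟨M', hM', -, hge⟩ := ih (F.erase (F.max' hne))
      (fun n hn => hF n (Finset.mem_of_mem_erase hn)) (by
        rw [Finset.card_erase_of_mem hM, hcard]
        rfl)
    have hM'F := Finset.mem_of_mem_erase hM'
    have hlt : M' < F.max' hne :=
      lt_of_le_of_ne (F.le_max' _ hM'F) (Finset.ne_of_mem_erase hM')
    have hg := gap (hF _ hM'F).1 (hF _ hM).1 (hF _ hM'F).2 hlt
    have hg' : (5 : ℝ) * M' < 2 * ((F.max' hne : ℕ) : ℝ) := by exact_mod_cast hg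
    rw [pow_succ]
    nlinarith

theorem count (x : ℕ) (hx : 5 ≤ x) (F : Finset ℕ)
    (hF : ∀ n ∈ F, Exceptional n ∧ 5 ≤ n ∧ n ≤ x) :
    (F.card : ℝ) ≤ 1 + Real.log ((x : ℝ) / 5) / Real.log (5 / 2) := by
  have hlog : 0 < Real.log (5 / 2) := Real.log_pos (by norm_num)
  have hx' : (5 : ℝ) ≤ x := by exact_mod_cast hx
  rcases Nat.eq_zero_or_pos F.card with h0 | hpos
  · rw [h0]
    have : 0 ≤ Real.log ((x : ℝ) / 5) / Real.log (5 / 2) := by
      apply div_nonneg _ hlog.le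
      apply Real.log_nonneg
      linarith
    push_cast
    linarith
  · obtain ⟨t, ht⟩ : ∃ t, F.card = t + 1 := ⟨F.card - 1, by omega⟩
    obtain ⟨M, hM, -, hge⟩ := geometric t F (fun n hn => ⟨(hF n hn).1, (hF n hn).2.1⟩) ht
    have hMx : (M : ℝ) ≤ x := by exact_mod_cast (hF M hM).2.2
    have h1 : ((5 : ℝ) / 2) ^ t ≤ (x : ℝ) / 5 := by linarith
    have h2 : (t : ℝ) * Real.log (5 / 2) ≤ Real.log ((x : ℝ) / 5) := by
      rw [← Real.log_pow]
      exact Real.log_le_log (by positivity) h1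
    have h3 : (t : ℝ) ≤ Real.log ((x : ℝ) / 5) / Real.log (5 / 2) := by
      rw [le_div_iff₀ hlog]
      exact h2
    rw [ht]
    push_cast
    linarith

end Pool.Agent.HarmExc
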