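import Mathlib
import Pool.Agent.HarmExc.Main

namespace Pool.Agent.HarmExc

open Finset

lemma sum_inv (p : ℕ) [hp : Fact p.Prime] (hp2 : p ≠ 2) :
    ∑ i ∈ Ico 1 p, ((i : ZMod p))⁻¹ = 0 := by
  have hp1 := hp.out.two_le
  have h1 : ∑ i ∈ Ico 1 p, ((i : ZMod p))⁻¹ = ∑ i ∈ Ico 1 p, -((i : ZMod p))⁻¹ := by
    refine Finset.sum_nbij' (fun i => p - i) (fun i => p - i) ?_ ?_ ?_ ?_ ?_
    · intro i hi
      rw [Finset.mem_Ico] at hi ⊢
      omega
    · intro i hi
      rw [Finset.mem_Ico] at hi ⊢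
      omega
    · intro i hi
      rw [Finset.mem_Ico] at hi
      show p - (p - i) = i
      omega
    · intro i hi
      rw [Finset.mem_Ico] at hi
      show p - (p - i) = i
      omega
    · intro i hi
      rw [Finset.mem_Ico] at hi
      rw [Nat.cast_sub hi.2.le, ZMod.natCast_self, zero_sub, inv_neg, neg_neg]
  rw [Finset.sum_neg_distrib] at h1
  have h2 : (2 : ZMod p) * ∑ i ∈ Ico 1 p, ((i : ZMod p))⁻¹ = 0 := by
    rw [two_mul]
    nth_rewrite 1 [h1]
    exact neg_add_cancel _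
  rcases mul_eq_zero.mp h2 with h3 | h3
  · exfalso
    have h4 : ((2 : ℕ) : ZMod p) = 0 := by exact_mod_cast h3
    rw [ZMod.natCast_eq_zero_iff] at h4
    have := Nat.le_of_dvd (by norm_num) h4
    omega
  · exact h3

lemma dvd_div {p k n j : ℕ} (hp : p.Prime) (hk : 1 ≤ k) (hkn : p ^ k ≤ n) (h2 : 2 ≤ j)
    (hj : j ≤ n) (hndvd : ¬ p ^ k ∣ j) : p ∣ b n / j := by
  obtain ⟨v, u, hu, rfl⟩ := Nat.exists_eq_pow_mul_and_not_dvd (by omega : j ≠ 0) p hp.ne_one
  have hv : v < k := by
    by_contra hcon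
    push Not at hcon
    exact hndvd (Dvd.dvd.mul_right (pow_dvd_pow p hcon) u)
  have hpk : p ^ k ∣ b n := by
    refine dvd_b ?_ hkn
    calc 2 ≤ p := hp.two_le
      _ = p ^ 1 := (pow_one p).symm
      _ ≤ p ^ k := Nat.pow_le_pow_right hp.pos hk
  have hub : u ∣ b n := (Dvd.intro_left _ rfl).trans (dvd_b h2 hj)
  have hc : Nat.Coprime (p ^ k) u := Nat.Coprime.pow_left k ((Nat.Prime.coprime_iff_not_dvd hp).mpr hu)
  have h3 : p ^ k * u ∣ b n := Nat.Coprime.mul_dvd_of_dvd_of_dvd hc hpk hub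
  have h4 : p ^ (v + 1) * u ∣ b n := (Nat.mul_dvd_mul_right (pow_dvd_pow p hv) u).trans h3
  have h5 : p ^ (v + 1) * u = p ^ v * u * p := by rw [pow_succ]; ring
  rw [h5] at h4
  exact Nat.dvd_div_of_mul_dvd h4

theorem interval {p k n : ℕ} (hp : p.Prime) (hp2 : p ≠ 2) (hk : 1 ≤ k)
    (h1 : (p - 1) * p ^ k ≤ n) (h2 : n < p ^ (k + 1)) : ¬ Exceptional n := by
  classical
  have : Fact p.Prime := ⟨hp⟩
  have hpge : 3 ≤ p := by
    have := hp.two_le
    omega
  have hppos : 0 < p ^ k := Nat.pow_pos hp.pos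
  have hpk2 : p ≤ p ^ k := by
    calc p = p ^ 1 := (pow_one p).symm
      _ ≤ p ^ k := Nat.pow_le_pow_right hp.pos hk
  have hkn : p ^ k ≤ n := by nlinarith [Nat.sub_add_cancel (show 1 ≤ p by omega)]
  have hpb : p ∣ b n := dvd_b (by omega) (hpk2.trans hkn)
  -- `p` divides `a n`
  have ha : ((a n : ℕ) : ZMod p) = 0 := by
    unfold a
    rw [Nat.cast_sum]
    have hsub : (Ico 1 p).image (fun i => i * p ^ k) ⊆ Icc 2 n := by
      intro j hj
      rw [Finset.mem_image] at hj
      obtain ⟨i, hi, rfl⟩ := hj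
      rw [Finset.mem_Ico] at hi
      rw [Finset.mem_Icc]
      constructor
      · nlinarith [hi.1]
      · calc i * p ^ k ≤ (p - 1) * p ^ k := Nat.mul_le_mul_right _ (by omega)
          _ ≤ n := h1
    rw [← Finset.sum_subset hsub]
    · rw [Finset.sum_image (fun x _ y _ h => Nat.eq_of_mul_eq_mul_right hppos h)]
      have hterm : ∀ i ∈ Ico 1 p, ((b n / (i * p ^ k) : ℕ) : ZMod p) =
          ((b n / p ^ k : ℕ) : ZMod p) * ((i : ZMod p))⁻¹ := by
        intro i hi
        have hmem : i * p ^ k ∈ Icc 2 n := hsub (Finset.mem_image.mpr ⟨i, hi, rfl⟩)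
        rw [Finset.mem_Icc] at hmem
        rw [Finset.mem_Ico] at hi
        have hdvd : i * p ^ k ∣ b n := dvd_b hmem.1 hmem.2
        have hi0 : ((i : ℕ) : ZMod p) ≠ 0 := by
          rw [Ne, ZMod.natCast_eq_zero_iff]
          intro h
          have := Nat.le_of_dvd (by omega) h
          omega
        have he : i * (b n / (i * p ^ k)) = b n / p ^ k := by
          obtain ⟨t, ht⟩ := hdvd
          rw [ht, Nat.mul_div_cancel_left t (Nat.mul_pos (by omega) hppos)]
          have : i * p ^ k * t = p ^ k * (i * t) := by ring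
          rw [this, Nat.mul_div_cancel_left _ hppos]
        rw [← he, Nat.cast_mul]
        field_simp
      rw [Finset.sum_congr rfl hterm, ← Finset.mul_sum, sum_inv p hp2, mul_zero]
    · intro j hj hnot
      rw [Finset.mem_Icc] at hj
      rw [ZMod.natCast_eq_zero_iff]
      refine dvd_div hp hk hkn hj.1 hj.2 ?_
      rintro ⟨i, rfl⟩
      apply hnot
      rw [Finset.mem_image]
      refine ⟨i, ?_, by ring⟩
      rw [Finset.mem_Ico]
      constructor
      · rcases Nat.eq_zero_or_pos i with h | h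
        · rw [h, Nat.mul_zero] at hj
          omega
        · exact h
      · by_contra hcon
        push Not at hcon
        have : p ^ k * p ≤ p ^ k * i := Nat.mul_le_mul_left _ hcon
        rw [pow_succ] at h2
        omega
  have hpa : (p : ℤ) ∣ (a n : ℤ) := by
    have := (ZMod.natCast_eq_zero_iff (a n) p).mp ha
    exact_mod_cast this
  have hpb' : (p : ℤ) ∣ (b n : ℤ) := by exact_mod_cast hpb
  rintro ⟨-, h | h⟩
  · have h3 := (dvd_sub_right hpa).mp (hpb'.trans h)
    have h4 : p ∣ 1 := by exact_mod_cast h3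
    have := Nat.le_of_dvd (by norm_num) h4
    omega
  · have h3 := (dvd_add_right hpa).mp (hpb'.trans h)
    have h4 : p ∣ 1 := by exact_mod_cast h3
    have := Nat.le_of_dvd (by norm_num) h4
    omega

end Pool.Agent.HarmExc
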